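import Pool.Agent.T6.H23.CP.Full
import Pool.Agent.W221.ABC.Main7

/-!
# Counting the rational numbers `x` for which `0`, `1`, `∞` meet `x` with multiplicities at least `e 0`, `e 1`, `e 2`
-/

set_option autoImplicit false

namespace Pool.Agent.T6.H23.CP

open Finset

/-- the radical -/
abbrev rd (n : ℕ) : ℕ := Pool.Agent.H785R2.ABC.rad n

theorem rd_eq (n : ℕ) : rd n = ∏ p ∈ n.primeFactors, p := rfl

theorem rd_mul_le (m n : ℕ) (hm : m ≠ 0) (hn : n ≠ 0) : rd (m * n) ≤ rd m * rd n := by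
  classical
  rw [rd_eq, rd_eq, rd_eq, Nat.primeFactors_mul hm hn, ← Finset.prod_union_inter]
  refine Nat.le_mul_of_pos_right _ ?_
  refine Finset.prod_pos fun p hp => ?_
  exact (Nat.prime_of_mem_primeFactors (Finset.mem_inter.1 hp).1).pos

theorem rd_le_of_dvd (m n : ℕ) (hn : n ≠ 0) (h : ∀ p : ℕ, p.Prime → p ∣ m → p ∣ n) : rd m ≤ n := by
  classical
  have hsub : m.primeFactors ⊆ n.primeFactors := by
    intro p hp
    have hp' := Nat.prime_of_mem_primeFactors hp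
    exact Nat.mem_primeFactors.2 ⟨hp', h p hp' (Nat.dvd_of_mem_primeFactors hp), hn⟩
  refine Nat.le_of_dvd (Nat.pos_of_ne_zero hn) ?_
  rw [rd_eq]
  exact (Finset.prod_dvd_prod_of_subset _ _ _ hsub).trans (Nat.prod_primeFactors_dvd n)

theorem rd_le (S : Finset ℕ) (e : ℕ) (he : 1 ≤ e) (n : ℕ) (hn : 1 ≤ n) (h : FullN S e n) :
    (rd n : ℝ) ≤ PS S * (n : ℝ) ^ (1 / (e : ℝ)) := by
  obtain ⟨A, B, hA, hn', hB⟩ := decomp S e he n hn h
  have hP := PS_pos S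
  have hB0 : B ≠ 0 := by
    rintro rfl
    rw [mul_zero] at hn'
    omega
  have h1 : rd n ≤ A * PS S := by
    refine rd_le_of_dvd n _ (mul_ne_zero (by omega) (by omega)) ?_
    intro p hp hd
    rw [hn'] at hd
    rcases (Nat.Prime.dvd_mul hp).1 hd with h | h
    · exact (hp.dvd_of_dvd_pow h).mul_right _
    · exact hp.dvd_of_dvd_pow (h.trans hB)
  have he0 : (0 : ℝ) < e := by exact_mod_cast he
  have h2 : (A : ℝ) ≤ (n : ℝ) ^ (1 / (e : ℝ)) := by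
    have h3 : (A : ℝ) ^ e ≤ n := by
      have h4 : A ^ e ≤ n := by
        conv_rhs => rw [hn']
        exact Nat.le_mul_of_pos_right _ (Nat.pos_of_ne_zero hB0)
      exact_mod_cast h4
    have h6 := Real.rpow_le_rpow (by positivity) h3 (z := 1 / (e : ℝ)) (by positivity)
    rwa [← Real.rpow_natCast, ← Real.rpow_mul (by positivity), mul_one_div_cancel he0.ne', Real.rpow_one] at h6
  calc (rd n : ℝ) ≤ ((A * PS S : ℕ) : ℝ) := by exact_mod_cast h1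
    _ = PS S * (A : ℝ) := by push_cast; ring
    _ ≤ PS S * (n : ℝ) ^ (1 / (e : ℝ)) := mul_le_mul_of_nonneg_left h2 (by positivity)

/-- the height `max (|num|, den)` -/
def H (x : ℚ) : ℕ := max x.num.natAbs x.den

theorem H_pos (x : ℚ) : 1 ≤ H x := le_trans x.den_pos (le_max_right _ _)

/-- the points with multiplicities at least `e` -/
def Pts (S : Finset ℕ) (e : Fin 3 → ℕ) : Set ℚ :=
  {x | x ≠ 0 ∧ x ≠ 1 ∧ FullN S (e 0) x.num.natAbs ∧ FullN S (e 1) (x.num - x.den).natAbs ∧ FullN S (e 2) x.den}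

theorem H_finite (X : ℝ) : {x : ℚ | (H x : ℝ) ≤ X}.Finite := by
  have hinj : Set.InjOn (fun x : ℚ => (x.num, x.den)) {x : ℚ | (H x : ℝ) ≤ X} := by
    intro x _ y _ h
    simp only [Prod.mk.injEq] at h
    exact Rat.ext h.1 h.2
  refine Set.Finite.of_finite_image (Set.Finite.subset ((Set.finite_Icc (-(⌊X⌋₊ : ℤ)) ⌊X⌋₊).prod
    (Set.finite_Iic ⌊X⌋₊)) ?_) hinj
  rintro p ⟨x, hx, rfl⟩
  have h1 : H x ≤ ⌊X⌋₊ := Nat.le_floor hx
  have h2 : x.num.natAbs ≤ ⌊X⌋₊ := (le_max_left _ _).trans h1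
  have h3 : x.den ≤ ⌊X⌋₊ := (le_max_right _ _).trans h1
  simp only [Set.mem_prod, Set.mem_Icc, Set.mem_Iic]
  omega

/-- a bound for the number of points of height up to `X` -/
def Bd (P : Set ℚ) (s : ℝ) : Prop :=
  ∃ C : ℝ, 0 ≤ C ∧ ∀ X : ℝ, 1 ≤ X → ({x | x ∈ P ∧ (H x : ℝ) ≤ X}.ncard : ℝ) ≤ C * X ^ s

theorem Bd.mono {P Q : Set ℚ} {s t : ℝ} (h : Bd Q t) (hPQ : P ⊆ Q) (hst : t ≤ s) : Bd P s := by
  obtain ⟨C, hC0, hC⟩ := h
  refine ⟨C, hC0, fun X hX => ?_⟩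
  have hsub : {x | x ∈ P ∧ (H x : ℝ) ≤ X} ⊆ {x | x ∈ Q ∧ (H x : ℝ) ≤ X} := fun x hx => ⟨hPQ hx.1, hx.2⟩
  have hfin : {x | x ∈ Q ∧ (H x : ℝ) ≤ X}.Finite := (H_finite X).subset fun x hx => hx.2
  have h1 : ({x | x ∈ P ∧ (H x : ℝ) ≤ X}.ncard : ℝ) ≤ ({x | x ∈ Q ∧ (H x : ℝ) ≤ X}.ncard : ℝ) := by
    exact_mod_cast Set.ncard_le_ncard hsub hfin
  exact h1.trans ((hC X hX).trans (mul_le_mul_of_nonneg_left (Real.rpow_le_rpow_of_exponent_le hX hst) hC0))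

theorem Bd.iUnion {ι : Type} (T : Finset ι) (P : ι → Set ℚ) (s : ℝ) (h : ∀ i ∈ T, Bd (P i) s) :
    Bd (⋃ i ∈ T, P i) s := by
  classical
  induction T using Finset.induction_on with
  | empty => exact ⟨0, le_rfl, fun X hX => by simp⟩
  | insert a T ha ih =>
    obtain ⟨C, hC0, hC⟩ := ih fun i hi => h i (Finset.mem_insert_of_mem hi)
    obtain ⟨D, hD0, hD⟩ := h a (Finset.mem_insert_self a T)
    refine ⟨D + C, by linarith, fun X hX => ?_⟩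
    have e1 : {x | x ∈ (⋃ i ∈ insert a T, P i) ∧ (H x : ℝ) ≤ X} =
        {x | x ∈ P a ∧ (H x : ℝ) ≤ X} ∪ {x | x ∈ (⋃ i ∈ T, P i) ∧ (H x : ℝ) ≤ X} := by
      ext x
      simp only [Finset.mem_insert, Set.iUnion_iUnion_eq_or_left, Set.mem_union, Set.mem_ofPred_eq]
      tauto
    rw [e1]
    have h1 : (({x | x ∈ P a ∧ (H x : ℝ) ≤ X} ∪ {x | x ∈ (⋃ i ∈ T, P i) ∧ (H x : ℝ) ≤ X}).ncard : ℝ) ≤
        ({x | x ∈ P a ∧ (H x : ℝ) ≤ X}.ncard : ℝ) + ({x | x ∈ (⋃ i ∈ T, P i) ∧ (H x : ℝ) ≤ X}.ncard : ℝ) := by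
      exact_mod_cast Set.ncard_union_le _ _
    have h2 := hC X hX
    have h3 := hD X hX
    rw [add_mul]
    linarith

/-- the three members -/
theorem members {x : ℚ} (h0 : x ≠ 0) (h1 : x ≠ 1) : 1 ≤ x.num.natAbs ∧ 1 ≤ (x.num - x.den).natAbs ∧ 1 ≤ x.den ∧
    (x.num - x.den).natAbs ≤ 2 * H x := by
  have e0 : x.num ≠ 0 := Rat.num_ne_zero.2 h0
  have e1 : x.num - x.den ≠ 0 := by
    intro h
    apply h1
    have h2 : x.num = (x.den : ℤ) := by omega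
    rw [← Rat.num_div_den x, h2]
    have h3 : (x.den : ℚ) ≠ 0 := by exact_mod_cast x.den_nz
    push_cast
    exact div_self h3
  refine ⟨Int.natAbs_pos.2 e0, Int.natAbs_pos.2 e1, x.den_pos, ?_⟩
  have h2 : x.num.natAbs ≤ H x := le_max_left _ _
  have h3 : x.den ≤ H x := le_max_right _ _
  omega

/-- the bound from two members -/
theorem pair_bound (S : Finset ℕ) (P : Set ℚ) (m n : ℕ) (hm : 1 ≤ m) (hn : 1 ≤ n) (f : ℕ × ℕ × Bool × Bool → ℚ)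
    (hf : ∀ x ∈ P, ∃ a b : ℕ, ∃ s t : Bool, 1 ≤ a ∧ 1 ≤ b ∧ a ≤ 2 * H x ∧ b ≤ 2 * H x ∧ FullN S m a ∧ FullN S n b ∧
      x = f (a, b, s, t)) (ε : ℝ) (hε : 0 < ε) : Bd P (1 / (m : ℝ) + 1 / (n : ℝ) + ε) := by
  classical
  obtain ⟨C, hC0, hC⟩ := full_count S m hm (ε / 2) (by positivity)
  obtain ⟨D, hD0, hD⟩ := full_count S n hn (ε / 2) (by positivity)
  refine ⟨4 * (C * D) * 2 ^ (1 / (m : ℝ) + 1 / (n : ℝ) + ε), by positivity, fun X hX => ?_⟩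
  have hX2 : 1 ≤ 2 * X := by linarith
  obtain ⟨f1, c1⟩ := hC (2 * X) hX2
  obtain ⟨f2, c2⟩ := hD (2 * X) hX2
  set G1 := f1.toFinset with hG1
  set G2 := f2.toFinset with hG2
  rw [Set.ncard_eq_toFinset_card _ f1, ← hG1] at c1
  rw [Set.ncard_eq_toFinset_card _ f2, ← hG2] at c2
  have hsub : {x | x ∈ P ∧ (H x : ℝ) ≤ X} ⊆
      (((G1 ×ˢ G2 ×ˢ (Finset.univ : Finset Bool) ×ˢ (Finset.univ : Finset Bool)).image f : Finset ℚ) : Set ℚ) := by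
    rintro x ⟨hx, hHx⟩
    obtain ⟨a, b, s, t, h1, h2, h3, h4, h5, h6, h7⟩ := hf x hx
    have h3' : (a : ℝ) ≤ 2 * X := le_trans (by exact_mod_cast h3) (mul_le_mul_of_nonneg_left hHx (by norm_num))
    have h4' : (b : ℝ) ≤ 2 * X := le_trans (by exact_mod_cast h4) (mul_le_mul_of_nonneg_left hHx (by norm_num))
    rw [Finset.mem_coe, Finset.mem_image]
    refine ⟨(a, b, s, t), ?_, h7.symm⟩
    simp only [Finset.mem_product, Finset.mem_univ, and_true, hG1, hG2, Set.Finite.mem_toFinset]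
    exact ⟨⟨h1, h3', h5⟩, ⟨h2, h4', h6⟩⟩
  have hcard : ({x | x ∈ P ∧ (H x : ℝ) ≤ X}.ncard : ℝ) ≤ 4 * ((G1.card : ℝ) * G2.card) := by
    have h1 := Set.ncard_le_ncard hsub (Finset.finite_toSet _)
    rw [Set.ncard_coe_finset] at h1
    have h2 : ((G1 ×ˢ G2 ×ˢ (Finset.univ : Finset Bool) ×ˢ (Finset.univ : Finset Bool)).image f).card ≤
        G1.card * (G2.card * (2 * 2)) := by
      refine Finset.card_image_le.trans (le_of_eq ?_)
      simp [Finset.card_product]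
    have h3 : ({x | x ∈ P ∧ (H x : ℝ) ≤ X}.ncard : ℝ) ≤ ((G1.card * (G2.card * (2 * 2)) : ℕ) : ℝ) := by
      exact_mod_cast h1.trans h2
    refine h3.trans (le_of_eq ?_)
    push_cast
    ring
  refine hcard.trans ?_
  have h2X : 0 < 2 * X := by linarith
  calc 4 * ((G1.card : ℝ) * G2.card)
      ≤ 4 * ((C * (2 * X) ^ (1 / (m : ℝ) + ε / 2)) * (D * (2 * X) ^ (1 / (n : ℝ) + ε / 2))) := by
        refine mul_le_mul_of_nonneg_left (mul_le_mul c1 c2 (Nat.cast_nonneg _) (by positivity)) (by norm_num)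
    _ = 4 * (C * D) * (2 * X) ^ (1 / (m : ℝ) + 1 / (n : ℝ) + ε) := by
        have : (2 * X) ^ (1 / (m : ℝ) + 1 / (n : ℝ) + ε) =
            (2 * X) ^ (1 / (m : ℝ) + ε / 2) * (2 * X) ^ (1 / (n : ℝ) + ε / 2) := by
          rw [← Real.rpow_add h2X]
          congr 1
          ring
        rw [this]
        ring
    _ = 4 * (C * D) * 2 ^ (1 / (m : ℝ) + 1 / (n : ℝ) + ε) * X ^ (1 / (m : ℝ) + 1 / (n : ℝ) + ε) := by
        rw [Real.mul_rpow (by norm_num) (by linarith)]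
        ring

/-- a sign -/
def sg (s : Bool) : ℚ := if s then 1 else -1

theorem abs_sg (n : ℤ) : ∃ s : Bool, (n : ℚ) = sg s * (n.natAbs : ℚ) := by
  rcases le_total 0 n with h | h
  · refine ⟨true, ?_⟩
    rw [Nat.cast_natAbs, abs_of_nonneg h]
    simp [sg]
  · refine ⟨false, ?_⟩
    rw [Nat.cast_natAbs, abs_of_nonpos h]
    simp [sg]

theorem pair02 (S : Finset ℕ) (e : Fin 3 → ℕ) (h0 : 1 ≤ e 0) (h2 : 1 ≤ e 2) (ε : ℝ) (hε : 0 < ε) :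
    Bd (Pts S e) (1 / (e 0 : ℝ) + 1 / (e 2 : ℝ) + ε) := by
  refine pair_bound S _ (e 0) (e 2) h0 h2 (fun p => sg p.2.2.1 * p.1 / p.2.1) ?_ ε hε
  rintro x ⟨hx0, hx1, k0, k1, k2⟩
  obtain ⟨m1, m2, m3, m4⟩ := members hx0 hx1
  obtain ⟨s, hs⟩ := abs_sg x.num
  have h5 : x.num.natAbs ≤ H x := le_max_left _ _
  have h6 : x.den ≤ H x := le_max_right _ _
  refine ⟨x.num.natAbs, x.den, s, true, m1, m3, by omega, by omega, k0, k2, ?_⟩
  simp only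
  rw [← hs, Rat.num_div_den]

theorem pair12 (S : Finset ℕ) (e : Fin 3 → ℕ) (h0 : 1 ≤ e 1) (h2 : 1 ≤ e 2) (ε : ℝ) (hε : 0 < ε) :
    Bd (Pts S e) (1 / (e 1 : ℝ) + 1 / (e 2 : ℝ) + ε) := by
  refine pair_bound S _ (e 1) (e 2) h0 h2 (fun p => (sg p.2.2.1 * p.1 + p.2.1) / p.2.1) ?_ ε hε
  rintro x ⟨hx0, hx1, k0, k1, k2⟩
  obtain ⟨m1, m2, m3, m4⟩ := members hx0 hx1
  obtain ⟨s, hs⟩ := abs_sg (x.num - x.den)
  have h6 : x.den ≤ H x := le_max_right _ _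
  refine ⟨(x.num - x.den).natAbs, x.den, s, true, m2, m3, m4, by omega, k1, k2, ?_⟩
  simp only
  rw [← hs]
  push_cast
  rw [sub_add_cancel, Rat.num_div_den]

theorem pair01 (S : Finset ℕ) (e : Fin 3 → ℕ) (h0 : 1 ≤ e 0) (h2 : 1 ≤ e 1) (ε : ℝ) (hε : 0 < ε) :
    Bd (Pts S e) (1 / (e 0 : ℝ) + 1 / (e 1 : ℝ) + ε) := by
  refine pair_bound S _ (e 0) (e 1) h0 h2 (fun p => sg p.2.2.1 * p.1 / (sg p.2.2.1 * p.1 - sg p.2.2.2 * p.2.1)) ?_ ε hε
  rintro x ⟨hx0, hx1, k0, k1, k2⟩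
  obtain ⟨m1, m2, m3, m4⟩ := members hx0 hx1
  obtain ⟨s, hs⟩ := abs_sg x.num
  obtain ⟨t, ht⟩ := abs_sg (x.num - x.den)
  have h5 : x.num.natAbs ≤ H x := le_max_left _ _
  refine ⟨x.num.natAbs, (x.num - x.den).natAbs, s, t, m1, m2, by omega, m4, k0, k1, ?_⟩
  simp only
  rw [← hs, ← ht]
  push_cast
  rw [sub_sub_cancel, Rat.num_div_den]

theorem pair_any (S : Finset ℕ) (e : Fin 3 → ℕ) (he : ∀ i, 1 ≤ e i) (i j : Fin 3) (hij : i ≠ j) (ε : ℝ) (hε : 0 < ε) :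
    Bd (Pts S e) (1 / (e i : ℝ) + 1 / (e j : ℝ) + ε) := by
  fin_cases i <;> fin_cases j
  · exact absurd rfl hij
  · exact pair01 S e (he 0) (he 1) ε hε
  · exact pair02 S e (he 0) (he 2) ε hε
  · exact (pair01 S e (he 0) (he 1) ε hε).mono le_rfl (le_of_eq (by simp only [Fin.zero_eta, Fin.mk_one]; ring))
  · exact absurd rfl hij
  · exact pair12 S e (he 1) (he 2) ε hε
  · exact (pair02 S e (he 0) (he 2) ε hε).mono le_rfl (le_of_eq (by simp only [Fin.zero_eta, Fin.reduceFinMk]; ring))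
  · exact (pair12 S e (he 1) (he 2) ε hε).mono le_rfl (le_of_eq (by simp only [Fin.mk_one, Fin.reduceFinMk]; ring))
  · exact absurd rfl hij

end Pool.Agent.T6.H23.CP
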