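import Pool.Agent.T6.H23.CP.Count

/-!
# The bound from the radical, and all hyperbolic triples of multiplicities
-/

set_option autoImplicit false

namespace Pool.Agent.T6.H23.CP

open Finset Pool.Agent.W221.ABC7

theorem rad3 (S : Finset ℕ) (e0 e1 e2 : ℕ) (h0 : 1 ≤ e0) (h1 : 1 ≤ e1) (h2 : 1 ≤ e2) (u v w c : ℕ) (hu : 1 ≤ u)
    (hv : 1 ≤ v) (hw : 1 ≤ w) (hu' : u ≤ c) (hv' : v ≤ c) (hw' : w ≤ c) (k0 : FullN S e0 u) (k1 : FullN S e1 v)
    (k2 : FullN S e2 w) :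
    (rd (u * v * w) : ℝ) ≤ (PS S : ℝ) ^ 3 * (c : ℝ) ^ (1 / (e0 : ℝ) + 1 / (e1 : ℝ) + 1 / (e2 : ℝ)) := by
  have hc : (0 : ℝ) < c := by exact_mod_cast (by omega : 0 < c)
  have r1 : rd (u * v * w) ≤ rd u * rd v * rd w :=
    (rd_mul_le _ _ (mul_ne_zero (by omega) (by omega)) (by omega)).trans
      (Nat.mul_le_mul_right _ (rd_mul_le _ _ (by omega) (by omega)))
  have aux : ∀ (n e : ℕ), 1 ≤ n → n ≤ c → 1 ≤ e → FullN S e n → (rd n : ℝ) ≤ PS S * (c : ℝ) ^ (1 / (e : ℝ)) := by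
    intro n e hn hnc he k
    refine (rd_le S e he n hn k).trans (mul_le_mul_of_nonneg_left ?_ (Nat.cast_nonneg _))
    exact Real.rpow_le_rpow (Nat.cast_nonneg _) (by exact_mod_cast hnc) (by positivity)
  calc (rd (u * v * w) : ℝ) ≤ ((rd u * rd v * rd w : ℕ) : ℝ) := by exact_mod_cast r1
    _ = (rd u : ℝ) * rd v * rd w := by push_cast; ring
    _ ≤ (PS S * (c : ℝ) ^ (1 / (e0 : ℝ))) * (PS S * (c : ℝ) ^ (1 / (e1 : ℝ))) *
        (PS S * (c : ℝ) ^ (1 / (e2 : ℝ))) := by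
        refine mul_le_mul (mul_le_mul (aux u e0 hu hu' h0 k0) (aux v e1 hv hv' h1 k1) (Nat.cast_nonneg _)
          (by positivity)) (aux w e2 hw hw' h2 k2) (Nat.cast_nonneg _) (by positivity)
    _ = (PS S : ℝ) ^ 3 * (c : ℝ) ^ (1 / (e0 : ℝ) + 1 / (e1 : ℝ) + 1 / (e2 : ℝ)) := by
        rw [Real.rpow_add hc, Real.rpow_add hc]
        ring

theorem F_bound (S : Finset ℕ) (e : Fin 3 → ℕ) (he : ∀ i, 1 ≤ e i) (ε : ℝ) (hε : 0 < ε) :
    Bd (Pts S e) (Fx (1 / (e 0 : ℝ) + 1 / (e 1 : ℝ) + 1 / (e 2 : ℝ)) + ε) := by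
  classical
  set σ : ℝ := 1 / (e 0 : ℝ) + 1 / (e 1 : ℝ) + 1 / (e 2 : ℝ) with hσ
  have hσ0 : 0 < σ := by
    have h0 : (0 : ℝ) < e 0 := by exact_mod_cast he 0
    positivity
  obtain ⟨C, hC⟩ := count_FxB ((PS S : ℝ) ^ 3) σ ε hσ0 hε
  have hF0 : 0 ≤ Fx σ + ε := by
    have := Fx_pos σ hσ0
    linarith
  refine ⟨3 * |C| * 2 ^ (Fx σ + ε), by positivity, fun X hX => ?_⟩
  set N : ℕ := ⌊2 * X⌋₊ with hN
  set Z := ExcB ((PS S : ℝ) ^ 3) σ N with hZ
  set f1 : ℕ × ℕ × ℕ → ℚ := fun p => (p.1 : ℚ) / p.2.2 with hf1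
  set f2 : ℕ × ℕ × ℕ → ℚ := fun p => -(p.1 : ℚ) / p.2.1 with hf2
  set f3 : ℕ × ℕ × ℕ → ℚ := fun p => (p.2.2 : ℚ) / p.2.1 with hf3
  have hZfin : Z.Finite := excB_finite _ _ _
  have hsub : {x | x ∈ Pts S e ∧ (H x : ℝ) ≤ X} ⊆ f1 '' Z ∪ f2 '' Z ∪ f3 '' Z := by
    rintro x ⟨⟨hx0, hx1, k0, k1, k2⟩, hHx⟩
    obtain ⟨m1, m2, m3, m4⟩ := members hx0 hx1
    have h5 : x.num.natAbs ≤ H x := le_max_left _ _
    have h6 : x.den ≤ H x := le_max_right _ _
    have hHN : 2 * H x ≤ N := by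
      rw [hN]
      apply Nat.le_floor
      push_cast
      linarith
    have hcop : Nat.Coprime x.num.natAbs x.den := x.reduced
    rcases lt_trichotomy x.num 0 with hneg | hz | hpos
    · have e1 : x.num.natAbs + x.den = (x.num - x.den).natAbs := by omega
      refine Or.inl (Or.inr ⟨(x.num.natAbs, x.den, (x.num - x.den).natAbs), ⟨m1, m3, hcop, e1, m4.trans hHN, ?_⟩, ?_⟩)
      · have := rad3 S (e 0) (e 1) (e 2) (he 0) (he 1) (he 2) x.num.natAbs (x.num - x.den).natAbs x.den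
          (x.num - x.den).natAbs m1 m2 m3 (by omega) le_rfl (by omega) k0 k1 k2
        simp only
        rwa [mul_right_comm] at this
      · simp only [hf2]
        have h7 : (x.num.natAbs : ℚ) = -(x.num : ℚ) := by
          rw [Nat.cast_natAbs, abs_of_nonpos hneg.le]
          push_cast
          ring
        rw [h7, neg_neg, Rat.num_div_den]
    · exact absurd hz (Rat.num_ne_zero.2 hx0)
    · rcases lt_trichotomy x.num x.den with hlt | heq | hgt
      · have e1 : x.num.natAbs + (x.num - x.den).natAbs = x.den := by omega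
        refine Or.inl (Or.inl ⟨(x.num.natAbs, (x.num - x.den).natAbs, x.den), ⟨m1, m2, ?_, e1,
          (show x.den ≤ N by omega), ?_⟩, ?_⟩)
        · simp only
          rw [← e1, Nat.coprime_self_add_right] at hcop
          exact hcop
        · exact rad3 S (e 0) (e 1) (e 2) (he 0) (he 1) (he 2) x.num.natAbs (x.num - x.den).natAbs x.den
            x.den m1 m2 m3 (by omega) (by omega) le_rfl k0 k1 k2
        · simp only [hf1]
          have h7 : (x.num.natAbs : ℚ) = (x.num : ℚ) := by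
            rw [Nat.cast_natAbs, abs_of_nonneg hpos.le]
          rw [h7, Rat.num_div_den]
      · omega
      · have e1 : (x.num - x.den).natAbs + x.den = x.num.natAbs := by omega
        refine Or.inr ⟨((x.num - x.den).natAbs, x.den, x.num.natAbs), ⟨m2, m3, ?_, e1,
          (show x.num.natAbs ≤ N by omega), ?_⟩, ?_⟩
        · simp only
          rw [← e1, Nat.coprime_add_self_left] at hcop
          exact hcop
        · have := rad3 S (e 0) (e 1) (e 2) (he 0) (he 1) (he 2) x.num.natAbs (x.num - x.den).natAbs x.den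
            x.num.natAbs m1 m2 m3 le_rfl (by omega) (by omega) k0 k1 k2
          simp only
          have e2 : (x.num - x.den).natAbs * x.den * x.num.natAbs = x.num.natAbs * (x.num - x.den).natAbs * x.den := by
            ring
          rwa [← e2] at this
        · simp only [hf3]
          have h7 : (x.num.natAbs : ℚ) = (x.num : ℚ) := by
            rw [Nat.cast_natAbs, abs_of_nonneg hpos.le]
          rw [h7, Rat.num_div_den]
  have hN1 : 1 ≤ N := by
    rw [hN]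
    apply Nat.le_floor
    push_cast
    linarith
  have hcard : ({x | x ∈ Pts S e ∧ (H x : ℝ) ≤ X}.ncard : ℝ) ≤ 3 * (Z.ncard : ℝ) := by
    have g1 := Set.ncard_le_ncard hsub (((hZfin.image f1).union (hZfin.image f2)).union (hZfin.image f3))
    have g2 := Set.ncard_union_le (f1 '' Z ∪ f2 '' Z) (f3 '' Z)
    have g3 := Set.ncard_union_le (f1 '' Z) (f2 '' Z)
    have g4 := Set.ncard_image_le (f := f1) hZfin
    have g5 := Set.ncard_image_le (f := f2) hZfin
    have g6 := Set.ncard_image_le (f := f3) hZfin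
    exact_mod_cast (by omega : {x | x ∈ Pts S e ∧ (H x : ℝ) ≤ X}.ncard ≤ 3 * Z.ncard)
  refine hcard.trans ?_
  have g7 := hC N hN1
  have g8 : (N : ℝ) ^ (Fx σ + ε) ≤ (2 * X) ^ (Fx σ + ε) :=
    Real.rpow_le_rpow (Nat.cast_nonneg _) (Nat.floor_le (by linarith)) hF0
  rw [Real.mul_rpow (by norm_num) (by linarith)] at g8
  have g9 : (Z.ncard : ℝ) ≤ |C| * (2 ^ (Fx σ + ε) * X ^ (Fx σ + ε)) := by
    refine g7.trans ?_
    refine (mul_le_mul_of_nonneg_right (le_abs_self C) (by positivity)).trans ?_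
    exact mul_le_mul_of_nonneg_left g8 (abs_nonneg C)
  calc 3 * (Z.ncard : ℝ) ≤ 3 * (|C| * (2 ^ (Fx σ + ε) * X ^ (Fx σ + ε))) := by linarith
    _ = 3 * |C| * 2 ^ (Fx σ + ε) * X ^ (Fx σ + ε) := by ring

theorem Fx_value {l : ℝ} (h : l ≤ 11 / 12) : Fx l ≤ 167 / 336 := by
  have h1 := (ml_Fx l (11 / 12) h).1
  have h2 : Fx (11 / 12) = 167 / 336 := by
    unfold Fx
    norm_num
  rw [h2] at h1
  exact h1

/-- the hyperbolic triples with entries in `{1, …, 7}` -/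
def E7 : Finset (Fin 3 → ℕ) :=
  (Fintype.piFinset fun _ => Finset.Icc 1 7).filter
    (fun e => e 0 * e 1 + e 1 * e 2 + e 0 * e 2 < e 0 * e 1 * e 2)

theorem dichotomy : ∀ a ∈ Finset.Icc 1 7, ∀ b ∈ Finset.Icc 1 7, ∀ c ∈ Finset.Icc 1 7,
    a * b + b * c + a * c < a * b * c →
    (21 * (a + b) ≤ 10 * (a * b) ∨ 21 * (b + c) ≤ 10 * (b * c) ∨ 21 * (a + c) ≤ 10 * (a * c)) ∨
      12 * (a * b + b * c + a * c) ≤ 11 * (a * b * c) := by
  decide

theorem inv_add_le {a b : ℕ} (ha : 1 ≤ a) (hb : 1 ≤ b) (h : 21 * (a + b) ≤ 10 * (a * b)) :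
    1 / (a : ℝ) + 1 / (b : ℝ) ≤ 10 / 21 := by
  have ha' : (0 : ℝ) < a := by exact_mod_cast ha
  have hb' : (0 : ℝ) < b := by exact_mod_cast hb
  have h' : 21 * ((a : ℝ) + b) ≤ 10 * (a * b) := by exact_mod_cast h
  rw [div_add_div _ _ ha'.ne' hb'.ne', div_le_div_iff₀ (by positivity) (by norm_num)]
  linarith

theorem general_bound (S : Finset ℕ) (ε : ℝ) (hε : 0 < ε) : Bd (⋃ e ∈ E7, Pts S e) (167 / 336 + ε) := by
  refine Bd.iUnion E7 (Pts S) _ ?_
  intro e he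
  rw [E7, Finset.mem_filter, Fintype.mem_piFinset] at he
  obtain ⟨h1, h2⟩ := he
  have h3 : ∀ i, 1 ≤ e i := fun i => (Finset.mem_Icc.1 (h1 i)).1
  have hpos : ∀ i, (0 : ℝ) < e i := fun i => by exact_mod_cast h3 i
  rcases dichotomy (e 0) (h1 0) (e 1) (h1 1) (e 2) (h1 2) h2 with (h | h | h) | h
  · refine (pair_any S e h3 0 1 (by decide) ε hε).mono le_rfl ?_
    have := inv_add_le (h3 0) (h3 1) h
    linarith
  · refine (pair_any S e h3 1 2 (by decide) ε hε).mono le_rfl ?_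
    have := inv_add_le (h3 1) (h3 2) h
    linarith
  · refine (pair_any S e h3 0 2 (by decide) ε hε).mono le_rfl ?_
    have := inv_add_le (h3 0) (h3 2) h
    linarith
  · refine (F_bound S e h3 ε hε).mono le_rfl ?_
    have h4 : 1 / (e 0 : ℝ) + 1 / (e 1 : ℝ) + 1 / (e 2 : ℝ) ≤ 11 / 12 := by
      have h0' := hpos 0
      have h1' := hpos 1
      have h2' := hpos 2
      have h' : 12 * ((e 0 : ℝ) * e 1 + e 1 * e 2 + e 0 * e 2) ≤ 11 * (e 0 * e 1 * e 2) := by exact_mod_cast h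
      have e5 : 1 / (e 0 : ℝ) + 1 / (e 1 : ℝ) + 1 / (e 2 : ℝ) =
          ((e 0 : ℝ) * e 1 + e 1 * e 2 + e 0 * e 2) / (e 0 * e 1 * e 2) := by
        field_simp
        ring
      rw [e5, div_le_div_iff₀ (by positivity) (by norm_num)]
      linarith
    have := Fx_value h4
    linarith

end Pool.Agent.T6.H23.CP
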