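import Pool.Agent.H705R2.ABC.Fac

/-!
# Integers which are `m`-full outside `S`
-/

set_option autoImplicit false

namespace Pool.Agent.T6.H23.CP

open Finset

/-- every prime outside `S` which divides `n` divides it at least `m` times -/
def FullN (S : Finset ℕ) (m : ℕ) (n : ℕ) : Prop := ∀ p : ℕ, p.Prime → p ∉ S → p ∣ n → p ^ m ∣ n

/-- the product of the primes of `S` -/
def PS (S : Finset ℕ) : ℕ := ∏ p ∈ S.filter Nat.Prime, p

theorem PS_pos (S : Finset ℕ) : 1 ≤ PS S := by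
  have h : 0 < ∏ p ∈ S.filter Nat.Prime, p := Finset.prod_pos fun p hp => (Finset.mem_filter.1 hp).2.pos
  exact h

theorem dvd_PS {S : Finset ℕ} {p : ℕ} (hp : p.Prime) (h : p ∈ S) : p ∣ PS S :=
  Finset.dvd_prod_of_mem _ (Finset.mem_filter.2 ⟨h, hp⟩)

/-- the decomposition `n = A ^ m * B` with `B ∣ (A P) ^ m` -/
theorem decomp (S : Finset ℕ) (m : ℕ) (hm : 1 ≤ m) (n : ℕ) (hn : 1 ≤ n) (h : FullN S m n) :
    ∃ A B : ℕ, 1 ≤ A ∧ n = A ^ m * B ∧ B ∣ (A * PS S) ^ m := by
  classical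
  set f : ℕ →₀ ℕ := n.factorization.mapRange (fun e => e / m) (Nat.zero_div m) with hf
  set A : ℕ := f.prod (· ^ ·) with hA
  have hfp : ∀ p ∈ f.support, p.Prime := by
    intro p hp
    have h1 : p ∈ n.factorization.support := Finsupp.support_mapRange hp
    rw [Nat.support_factorization] at h1
    exact Nat.prime_of_mem_primeFactors h1
  have hAf : A.factorization = f := Nat.prod_pow_factorization_eq_self hfp
  have hA1 : 1 ≤ A := by
    rw [hA, Finsupp.prod]
    exact Finset.prod_pos fun p hp => pow_pos (hfp p hp).pos _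
  have hfv : ∀ p, f p = n.factorization p / m := fun p => by
    rw [hf, Finsupp.mapRange_apply]
  have hdvd : A ^ m ∣ n := by
    rw [← Nat.factorization_le_iff_dvd (pow_ne_zero _ (by omega)) (by omega), Nat.factorization_pow, hAf]
    intro p
    rw [Finsupp.smul_apply, hfv, smul_eq_mul]
    exact Nat.mul_div_le _ _
  obtain ⟨B, hB⟩ := hdvd
  have hB0 : B ≠ 0 := by
    rintro rfl
    omega
  refine ⟨A, B, hA1, hB, ?_⟩
  have hP := PS_pos S
  rw [← Nat.factorization_le_iff_dvd hB0 (pow_ne_zero _ (mul_ne_zero (by omega) (by omega)))]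
  intro p
  have h1 : n.factorization p = m * f p + B.factorization p := by
    conv_lhs => rw [hB]
    rw [Nat.factorization_mul (pow_ne_zero _ (by omega)) hB0, Nat.factorization_pow, hAf]
    rfl
  rw [hfv] at h1
  have h2 : B.factorization p = n.factorization p % m := by
    have := Nat.div_add_mod (n.factorization p) m
    omega
  rw [Nat.factorization_pow, Nat.factorization_mul (by omega) (by omega), Finsupp.smul_apply, Finsupp.add_apply,
    smul_eq_mul, hAf, hfv, h2]
  have h3 := Nat.mod_lt (n.factorization p) hm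
  by_cases h4 : n.factorization p % m = 0
  · rw [h4]
    exact Nat.zero_le _
  have h5 : 1 ≤ n.factorization p / m + (PS S).factorization p := by
    by_contra hcon
    have h67 : n.factorization p / m = 0 ∧ (PS S).factorization p = 0 :=
      Nat.add_eq_zero_iff.1 (Nat.lt_one_iff.1 (not_le.1 hcon))
    obtain ⟨h6, h7⟩ := h67
    have h8 : n.factorization p < m := by
      rcases Nat.div_eq_zero_iff.1 h6 with h | h
      · omega
      · exact h
    have h9 : n.factorization p ≠ 0 := by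
      intro h0
      rw [h0] at h4
      simp at h4
    have hp : p.Prime := by
      by_contra hnp
      exact h9 (Nat.factorization_eq_zero_of_not_prime _ hnp)
    have hpn : p ∣ n := Nat.dvd_of_factorization_pos h9
    by_cases hpS : p ∈ S
    · have h10 := dvd_PS hp hpS
      have h11 := (hp.factorization_pos_of_dvd (by omega) h10)
      omega
    · have h10 := h p hp hpS hpn
      rw [hp.pow_dvd_iff_le_factorization (by omega)] at h10
      omega
  calc n.factorization p % m ≤ m * 1 := by omega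
    _ ≤ m * (n.factorization p / m + (PS S).factorization p) := Nat.mul_le_mul_left _ h5

/-- the number of `n ≤ X` which are `m`-full outside `S` -/
theorem full_count (S : Finset ℕ) (m : ℕ) (hm : 1 ≤ m) (ε : ℝ) (hε : 0 < ε) : ∃ C : ℝ, 0 < C ∧ ∀ X : ℝ, 1 ≤ X →
    {n : ℕ | 1 ≤ n ∧ (n : ℝ) ≤ X ∧ FullN S m n}.Finite ∧
      ({n : ℕ | 1 ≤ n ∧ (n : ℝ) ≤ X ∧ FullN S m n}.ncard : ℝ) ≤ C * X ^ (1 / (m : ℝ) + ε) := by
  classical
  obtain ⟨D, hD, hτ⟩ := Pool.Agent.H705R2.ABC.stmtTau (ε / m) (by positivity)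
  have hm0 : (0 : ℝ) < m := by exact_mod_cast hm
  have hP := PS_pos S
  have hPR : (1 : ℝ) ≤ PS S := by exact_mod_cast hP
  refine ⟨D * (PS S : ℝ) ^ (m * ε), by positivity, fun X hX => ?_⟩
  have hX0 : 0 < X := by linarith
  set Y : ℕ := ⌊X ^ (1 / (m : ℝ))⌋₊ with hY
  have hYle : (Y : ℝ) ≤ X ^ (1 / (m : ℝ)) := Nat.floor_le (by positivity)
  set W : Finset (Σ _ : ℕ, ℕ) := (Finset.Icc 1 Y).sigma (fun A => ((A * PS S) ^ m).divisors) with hW
  set g : (Σ _ : ℕ, ℕ) → ℕ := fun s => s.1 ^ m * s.2 with hg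
  have hsub : {n : ℕ | 1 ≤ n ∧ (n : ℝ) ≤ X ∧ FullN S m n} ⊆ ((W.image g : Finset ℕ) : Set ℕ) := by
    rintro n ⟨h1, h2, h3⟩
    obtain ⟨A, B, hA, hn, hB⟩ := decomp S m hm n h1 h3
    rw [Finset.mem_coe, Finset.mem_image]
    refine ⟨⟨A, B⟩, ?_, hn.symm⟩
    rw [hW, Finset.mem_sigma, Finset.mem_Icc, Nat.mem_divisors]
    have hB0 : 1 ≤ B := Nat.one_le_iff_ne_zero.2 (by
      rintro rfl
      rw [mul_zero] at hn
      omega)
    refine ⟨⟨hA, ?_⟩, hB, pow_ne_zero _
      (mul_ne_zero (Nat.one_le_iff_ne_zero.1 hA) (Nat.one_le_iff_ne_zero.1 hP))⟩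
    rw [hY]
    apply Nat.le_floor
    have h4 : (A : ℝ) ^ m ≤ X := by
      have h5 : A ^ m ≤ n := by
        rw [hn]
        exact Nat.le_mul_of_pos_right _ hB0
      exact le_trans (by exact_mod_cast h5) h2
    have h6 := Real.rpow_le_rpow (by positivity) h4 (z := 1 / (m : ℝ)) (by positivity)
    rwa [← Real.rpow_natCast, ← Real.rpow_mul (by positivity), mul_one_div_cancel hm0.ne', Real.rpow_one] at h6
  refine ⟨(Finset.finite_toSet _).subset hsub, ?_⟩
  have hc1 : ({n : ℕ | 1 ≤ n ∧ (n : ℝ) ≤ X ∧ FullN S m n}.ncard : ℝ) ≤ (W.card : ℝ) := by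
    have h1 := Set.ncard_le_ncard hsub (Finset.finite_toSet _)
    rw [Set.ncard_coe_finset] at h1
    exact_mod_cast h1.trans Finset.card_image_le
  refine hc1.trans ?_
  rw [hW, Finset.card_sigma]
  push_cast
  have hterm : ∀ A ∈ Finset.Icc 1 Y, (((A * PS S) ^ m).divisors.card : ℝ) ≤
      D * ((PS S : ℝ) ^ (m * ε) * X ^ ε) := by
    intro A hA
    rw [Finset.mem_Icc] at hA
    refine (hτ _ (Nat.one_le_pow _ _ (Nat.mul_pos (by omega) (by omega)))).trans ?_
    refine mul_le_mul_of_nonneg_left ?_ hD.le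
    have hAR : (1 : ℝ) ≤ A := by exact_mod_cast hA.1
    have e1 : (((A * PS S) ^ m : ℕ) : ℝ) ^ (ε / m) = (A : ℝ) ^ ε * (PS S : ℝ) ^ ε := by
      push_cast
      rw [← Real.rpow_natCast, ← Real.rpow_mul (by positivity), mul_div_cancel₀ _ hm0.ne',
        Real.mul_rpow (by positivity) (by positivity)]
    rw [e1, mul_comm]
    have e2 : (PS S : ℝ) ^ ε ≤ (PS S : ℝ) ^ (m * ε) := by
      apply Real.rpow_le_rpow_of_exponent_le hPR
      have : (1 : ℝ) ≤ m := by exact_mod_cast hm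
      nlinarith
    have e3 : (A : ℝ) ^ ε ≤ X ^ ε := by
      apply Real.rpow_le_rpow (by positivity) _ hε.le
      calc (A : ℝ) ≤ (Y : ℝ) := by exact_mod_cast hA.2
        _ ≤ X ^ (1 / (m : ℝ)) := hYle
        _ ≤ X ^ (1 : ℝ) := by
            apply Real.rpow_le_rpow_of_exponent_le hX
            rw [div_le_one hm0]
            exact_mod_cast hm
        _ = X := Real.rpow_one _
    exact mul_le_mul e2 e3 (by positivity) (by positivity)
  calc ∑ A ∈ Finset.Icc 1 Y, (((A * PS S) ^ m).divisors.card : ℝ)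
      ≤ ∑ _A ∈ Finset.Icc 1 Y, D * ((PS S : ℝ) ^ (m * ε) * X ^ ε) := Finset.sum_le_sum hterm
    _ = (Y : ℝ) * (D * ((PS S : ℝ) ^ (m * ε) * X ^ ε)) := by
        rw [Finset.sum_const, Nat.card_Icc, nsmul_eq_mul]
        simp
    _ ≤ X ^ (1 / (m : ℝ)) * (D * ((PS S : ℝ) ^ (m * ε) * X ^ ε)) :=
        mul_le_mul_of_nonneg_right hYle (by positivity)
    _ = D * (PS S : ℝ) ^ (m * ε) * X ^ (1 / (m : ℝ) + ε) := by
        rw [Real.rpow_add hX0]
        ring

end Pool.Agent.T6.H23.CP
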